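import Pool.Agent.Helper5.KPA.StP

set_option autoImplicit false

namespace Pool.Agent.Helper66.KPA

open Pool.Agent.Helper5.KPA Pool.Agent.Helper52.KP MvPolynomial

theorem exX {C : Cone} (hC : Good C) : ∃ X ∈ C.R 1, X ≠ 0 := by
  have hz : ∃ z, z ∈ C.U := by
    by_contra hcon
    apply hC.Δ0
    apply MvPolynomial.funext
    intro z
    by_contra hz
    apply hcon
    refine ⟨z, ?_⟩
    change ev C.Δ z ≠ 0
    simpa using hz
  obtain ⟨z, hz⟩ := hz
  have h1 := hC.Xpos z hz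
  by_contra hcon
  push Not at hcon
  have h2 : C.sz z = 0 := by
    unfold Cone.sz
    apply Finset.sum_eq_zero
    intro i _
    rw [hcon _ (hC.XR i)]
    simp [ev]
  rw [h2] at h1
  exact lt_irrefl _ h1

theorem Rpow {C : Cone} (hC : Good C) {a : ℕ} {f : MvPolynomial (Fin C.m) ℂ} (hf : f ∈ C.R a)
    (j : ℕ) : f ^ j ∈ C.R (a * j) := by
  induction j with
  | zero => simpa using hC.one
  | succ j ih =>
    rw [pow_succ, Nat.mul_succ]
    exact hC.mul _ _ _ _ ih hf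

theorem QRmul {C : Cone} (hC : Good C) {a a' : ℕ} {x y : QQ C.m} (hx : x ∈ QR C a)
    (hy : y ∈ QR C a') : x * y ∈ QR C (a + a') := by
  intro l
  rw [Polynomial.coeff_mul]
  exact (C.R (a + a')).sum_mem fun p _ => hC.mul _ _ _ _ (hx p.1) (hy p.2)

theorem QRC {C : Cone} {a : ℕ} {f : MvPolynomial (Fin C.m) ℂ} (hf : f ∈ C.R a) :
    (Polynomial.C f : QQ C.m) ∈ QR C a := by
  intro l
  rw [Polynomial.coeff_C]
  split
  · exact hf
  · exact (C.R a).zero_mem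

theorem QRX {C : Cone} (hC : Good C) : (Polynomial.X : QQ C.m) ∈ QR C 0 := by
  intro l
  rw [Polynomial.coeff_X]
  split
  · exact hC.one
  · exact (C.R 0).zero_mem

theorem QRone {C : Cone} (hC : Good C) : (1 : QQ C.m) ∈ QR C 0 := by
  have := QRC (C := C) (a := 0) hC.one
  simpa using this

theorem QRpow {C : Cone} (hC : Good C) {a : ℕ} {x : QQ C.m} (hx : x ∈ QR C a) (j : ℕ) :
    x ^ j ∈ QR C (a * j) := by
  induction j with
  | zero => simpa using QRone hC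
  | succ j ih =>
    rw [pow_succ, Nat.mul_succ]
    exact QRmul hC ih hx

theorem BBle {C : Cone} {r : ℕ} {F : ℕ → ℕ → Submodule ℂ (MvPolynomial (Fin C.m) ℂ)}
    (hF : NF C r F) {k : ℕ} {x : QQ C.m} (hx : x ∈ BB F k) : x ∈ QR C (C.n * r * k) := by
  intro l
  have h1 : ∀ l, F k l ≤ F k 0 := by
    intro l
    induction l with
    | zero => exact le_rfl
    | succ l ih => exact (hF.anti k l).trans ih
  have := h1 l (hx l)
  rwa [hF.zero k] at this

section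

variable {C : Cone} {r : ℕ} {F : ℕ → ℕ → Submodule ℂ (MvPolynomial (Fin C.m) ℂ)} {h : ℕ}
  {v : Fin h → QQ C.m → ℤ} {b : Fin h → ℕ}

theorem v_one (hv : VD C r F h v b) (i : Fin h) : v i 1 = 0 := by
  have := hv.cst i 1 one_ne_zero
  simpa using this

theorem v_pow (hC : Good C) (hv : VD C r F h v b) (i : Fin h) {k : ℕ} {x : QQ C.m}
    (hx : x ∈ QR C (C.n * r * k)) (hx0 : x ≠ 0) (j : ℕ) : v i (x ^ j) = j * v i x := by
  induction j with
  | zero => simpa using v_one hv i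
  | succ j ih =>
    have h1 : x ^ j ∈ QR C (C.n * r * (k * j)) := by
      have := QRpow hC hx j
      rwa [mul_assoc (C.n * r) k j] at this
    rw [pow_succ, hv.mul i _ _ _ _ h1 hx (pow_ne_zero _ hx0) hx0, ih]
    push_cast
    ring

/-- membership in `W_k` -/
def WW (C : Cone) (r : ℕ) {h : ℕ} (v : Fin h → QQ C.m → ℤ) (b : Fin h → ℕ) (ℓ : ℝ) (k : ℕ)
    (x : QQ C.m) : Prop :=
  x ∈ QR C (C.n * r * k - C.n) ∧ x.coeff 0 = 0 ∧
    (x ≠ 0 → ∀ i, -((r : ℝ) * ℓ * b i) < v i (x ^ r))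

theorem sub_eq (C : Cone) (r k : ℕ) : C.n * r * k - C.n = C.n * (r * k - 1) := by
  rw [Nat.mul_sub, mul_one, mul_assoc]

theorem WW_zero (ℓ : ℝ) (k : ℕ) : WW C r v b ℓ k 0 :=
  ⟨(QR C _).zero_mem, by simp, fun h0 => absurd rfl h0⟩

theorem WW_add (hC : Good C) (hF : NF C r F) (hv : VD C r F h v b) (hMVV : StMVV) (ℓ : ℝ) (k : ℕ)
    {x y : QQ C.m} (hx : WW C r v b ℓ k x) (hy : WW C r v b ℓ k y) : WW C r v b ℓ k (x + y) := by
  by_cases hx0 : x = 0
  · rw [hx0, zero_add]; exact hy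
  by_cases hy0 : y = 0
  · rw [hy0, add_zero]; exact hx
  refine ⟨(QR C _).add_mem hx.1 hy.1, by rw [Polynomial.coeff_add, hx.2.1, hy.2.1, add_zero], ?_⟩
  intro hxy i
  have h1 := (hMVV C hC r F hF h v b hv i).2.1 (r * k - 1) x y (by rw [← sub_eq]; exact hx.1)
    (by rw [← sub_eq]; exact hy.1) hx0 hy0 hxy
  have h2 := hx.2.2 hx0 i
  have h3 := hy.2.2 hy0 i
  rcases min_le_iff.1 h1 with h4 | h4
  · exact lt_of_lt_of_le h2 (by exact_mod_cast h4)
  · exact lt_of_lt_of_le h3 (by exact_mod_cast h4)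

theorem WW_smul (hC : Good C) (hF : NF C r F) (hv : VD C r F h v b) (hMVV : StMVV) (ℓ : ℝ) (k : ℕ)
    {x : QQ C.m} (c : ℂ) (hx : WW C r v b ℓ k x) : WW C r v b ℓ k (c • x) := by
  by_cases hx0 : x = 0
  · rw [hx0, smul_zero]; exact WW_zero ℓ k
  by_cases hc : c = 0
  · rw [hc, zero_smul]; exact WW_zero ℓ k
  refine ⟨(QR C _).smul_mem c hx.1, by rw [Polynomial.coeff_smul, hx.2.1, smul_zero], ?_⟩
  intro hxy i
  rw [(hMVV C hC r F hF h v b hv i).2.2.2.2 (r * k - 1) x c (by rw [← sub_eq]; exact hx.1) hx0 hc]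
  exact hx.2.2 hx0 i

theorem WW_mul (hC : Good C) (hF : NF C r F) (hv : VD C r F h v b) (hMVV : StMVV) (ℓ : ℝ) {k k' : ℕ}
    (hk : 1 ≤ k) {x y : QQ C.m} (hx : WW C r v b ℓ k x) (hx0 : x ≠ 0) (hy : y ∈ BB F k')
    (hy0 : y ≠ 0) : WW C r v b ℓ (k + k') (x * y) ∧
      ∀ i, v i ((x * y) ^ r) = v i (x ^ r) + r * v i y := by
  have hr := hF.hr
  have hy' := BBle hF hy
  have e0 : ∀ i, v i ((x * y) ^ r) = v i (x ^ r) + r * v i y := by
    intro i
    have h1 := (hMVV C hC r F hF h v b hv i).1 (r * k - 1) (r * k') x y (by rw [← sub_eq]; exact hx.1)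
      (by rw [← mul_assoc]; exact hy') hx0 hy0
    rw [h1, (hMVV C hC r F hF h v b hv i).2.2.1 k' y hy' hy0]
  refine ⟨⟨?_, ?_, ?_⟩, e0⟩
  · have e1 : C.n * r * k - C.n + C.n * r * k' = C.n * r * (k + k') - C.n := by
      have : C.n ≤ C.n * r * k := by
        calc C.n = C.n * 1 * 1 := by ring
          _ ≤ C.n * r * k := Nat.mul_le_mul (Nat.mul_le_mul_left _ hr) hk
      rw [mul_add]; omega
    rw [← e1]
    exact QRmul hC hx.1 hy'
  · rw [Polynomial.mul_coeff_zero, hx.2.1, zero_mul]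
  · intro _ i
    rw [e0 i]
    have h1 := hx.2.2 hx0 i
    have h2 : (0 : ℤ) ≤ r * v i y := mul_nonneg (by positivity) (hv.nonneg i k' y hy hy0)
    have h3 : (0 : ℝ) ≤ ((r * v i y : ℤ) : ℝ) := by exact_mod_cast h2
    push_cast at h3 ⊢
    linarith

end

theorem step1 (hMVV : StMVV) {C : Cone} (hC : Good C) {r : ℕ}
    {F : ℕ → ℕ → Submodule ℂ (MvPolynomial (Fin C.m) ℂ)} (hF : NF C r F) {h : ℕ}
    {v : Fin h → QQ C.m → ℤ} {b : Fin h → ℕ} (hv : VD C r F h v b) (ℓ : ℝ) (i : Fin h) :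
    ∃ (k : ℕ) (x : QQ C.m), 1 ≤ k ∧ WW C r v b ℓ k x ∧ x ≠ 0 ∧
      (v i (x ^ r) : ℝ) ≤ r - (r : ℝ) * ℓ * b i := by
  have hr := hF.hr
  have hrR : (1 : ℝ) ≤ r := by exact_mod_cast hr
  obtain ⟨X, hX1, hX0⟩ := exX hC
  obtain ⟨s₀, hs₀⟩ : ∃ s₀ : QQ C.m, s₀ = Polynomial.C (X ^ (C.n * (r - 1))) := ⟨_, rfl⟩
  have hs1 : s₀ ∈ QR C (C.n * (r - 1)) := by
    rw [hs₀]
    apply QRC
    have := Rpow hC hX1 (C.n * (r - 1))
    rwa [one_mul] at this
  have hs0 : s₀ ≠ 0 := by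
    rw [hs₀]
    exact Polynomial.C_ne_zero.2 (pow_ne_zero _ hX0)
  -- the integer g
  obtain ⟨g, hg⟩ : ∃ g : ℤ, g = ⌊1 - ℓ * b i - (v i (s₀ ^ r) : ℝ) / r⌋ := ⟨_, rfl⟩
  have hg1 : (v i (s₀ ^ r) : ℝ) + r * g ≤ r - (r : ℝ) * ℓ * b i := by
    have h1 : (g : ℝ) ≤ 1 - ℓ * b i - (v i (s₀ ^ r) : ℝ) / r := by
      rw [hg]; exact Int.floor_le _
    have h2 : (r : ℝ) * g ≤ r * (1 - ℓ * b i - (v i (s₀ ^ r) : ℝ) / r) :=
      mul_le_mul_of_nonneg_left h1 (by linarith)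
    have h3 : (r : ℝ) * ((v i (s₀ ^ r) : ℝ) / r) = v i (s₀ ^ r) := by
      field_simp
    nlinarith
  have hg2 : -((r : ℝ) * ℓ * b i) < (v i (s₀ ^ r) : ℝ) + r * g := by
    have h1 : 1 - ℓ * b i - (v i (s₀ ^ r) : ℝ) / r < g + 1 := by
      rw [hg]; exact Int.lt_floor_add_one _
    have h2 : (r : ℝ) * (1 - ℓ * b i - (v i (s₀ ^ r) : ℝ) / r) < r * (g + 1) :=
      mul_lt_mul_of_pos_left h1 (by linarith)
    have h3 : (r : ℝ) * ((v i (s₀ ^ r) : ℝ) / r) = v i (s₀ ^ r) := by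
      field_simp
    nlinarith
  obtain ⟨c, hc⟩ : ∃ c : ℕ, c = 1 + g.natAbs := ⟨_, rfl⟩
  have hbi := hv.bpos i
  have hgc : 0 ≤ g + c * b i := by
    have h1 : (c : ℤ) * b i ≥ c := by
      have : (1 : ℤ) ≤ b i := by exact_mod_cast hbi
      nlinarith [Int.natCast_nonneg c]
    have h2 : (c : ℤ) = 1 + |g| := by rw [hc]; push_cast; simp
    have h3 := neg_abs_le g
    linarith
  obtain ⟨e, he⟩ := Int.eq_ofNat_of_zero_le hgc
  obtain ⟨k₁, π, hπ, hπ0, hπ1⟩ := hv.unif i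
  obtain ⟨k₂, t, ht, ht0, ht1, ht2⟩ := hv.sep i
  -- K
  have hK : ∀ j : Fin h, ∃ K : ℕ, -((r : ℝ) * ℓ * b j) - (v j (s₀ ^ r) : ℝ) + r * c * b j < K := by
    intro j
    exact exists_nat_gt _
  choose Kf hKf using hK
  obtain ⟨K, hKd⟩ : ∃ K : ℕ, K = ∑ j, Kf j := ⟨_, rfl⟩
  have hKj : ∀ j, -((r : ℝ) * ℓ * b j) - (v j (s₀ ^ r) : ℝ) + r * c * b j < K := by
    intro j
    refine lt_of_lt_of_le (hKf j) ?_
    have : Kf j ≤ K := by
      rw [hKd]
      exact Finset.single_le_sum (f := Kf) (fun _ _ => Nat.zero_le _) (Finset.mem_univ j)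
    exact_mod_cast this
  obtain ⟨y, hy⟩ : ∃ y : QQ C.m, y = Polynomial.X ^ c * (π ^ e * t ^ K) := ⟨_, rfl⟩
  have hπ' := BBle hF hπ
  have ht' := BBle hF ht
  have q1 : (Polynomial.X : QQ C.m) ^ c ∈ QR C (C.n * r * 0) := by
    have := QRpow hC (QRX hC) c
    rwa [Nat.zero_mul] at this
  have q0 : (Polynomial.X : QQ C.m) ∈ QR C (C.n * r * 0) := by
    have := QRX hC
    rwa [mul_zero]
  have q2 : π ^ e ∈ QR C (C.n * r * (k₁ * e)) := by
    have := QRpow hC hπ' e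
    rwa [mul_assoc (C.n * r) k₁ e] at this
  have q3 : t ^ K ∈ QR C (C.n * r * (k₂ * K)) := by
    have := QRpow hC ht' K
    rwa [mul_assoc (C.n * r) k₂ K] at this
  have q4 : π ^ e * t ^ K ∈ QR C (C.n * r * (k₁ * e + k₂ * K)) := by
    rw [mul_add]; exact QRmul hC q2 q3
  have q5 : y ∈ QR C (C.n * r * (k₁ * e + k₂ * K)) := by
    rw [hy]
    have := QRmul hC q1 q4
    rwa [mul_zero, zero_add] at this
  have n1 : (Polynomial.X : QQ C.m) ^ c ≠ 0 := pow_ne_zero _ Polynomial.X_ne_zero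
  have n2 : π ^ e ≠ 0 := pow_ne_zero _ hπ0
  have n3 : t ^ K ≠ 0 := pow_ne_zero _ ht0
  have n4 : y ≠ 0 := by rw [hy]; exact mul_ne_zero n1 (mul_ne_zero n2 n3)
  have vy : ∀ j, v j y = -(c * b j : ℤ) + e * v j π + K * v j t := by
    intro j
    rw [hy, hv.mul j _ _ _ _ q1 q4 n1 (mul_ne_zero n2 n3), hv.mul j _ _ _ _ q2 q3 n2 n3,
      v_pow hC hv j q0 Polynomial.X_ne_zero, v_pow hC hv j hπ' hπ0, v_pow hC hv j ht' ht0, hv.tau]
    ring
  refine ⟨k₁ * e + k₂ * K + 1, s₀ * y, by omega, ?_, mul_ne_zero hs0 n4, ?_⟩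
  · have e0 : ∀ j, v j ((s₀ * y) ^ r) = v j (s₀ ^ r) + r * v j y := by
      intro j
      rw [(hMVV C hC r F hF h v b hv j).1 (r - 1) (r * (k₁ * e + k₂ * K)) s₀ y hs1
        (by rw [← mul_assoc]; exact q5) hs0 n4,
        (hMVV C hC r F hF h v b hv j).2.2.1 _ y q5 n4]
    refine ⟨?_, ?_, ?_⟩
    · have e1 : C.n * (r - 1) + C.n * r * (k₁ * e + k₂ * K) =
          C.n * r * (k₁ * e + k₂ * K + 1) - C.n := by
        obtain ⟨r', rfl⟩ : ∃ r', r = r' + 1 := ⟨r - 1, by omega⟩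
        rw [Nat.add_sub_cancel]
        have : C.n * (r' + 1) * (k₁ * e + k₂ * K + 1) =
          C.n * r' + C.n * (r' + 1) * (k₁ * e + k₂ * K) + C.n := by ring
        omega
      rw [← e1]
      exact QRmul hC hs1 q5
    · rw [Polynomial.mul_coeff_zero, hy, Polynomial.mul_coeff_zero, Polynomial.coeff_X_pow]
      have : ¬ (0 = c) := by omega
      simp [this]
    · intro _ j
      rw [e0 j]
      by_cases hj : j = i
      · rw [hj, vy i, hπ1, ht1]
        have e2 : (-(c * b i : ℤ) + e * 1 + K * 0 : ℤ) = g := by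
          have : (g + c * b i : ℤ) = (e : ℤ) := he
          linarith
        rw [e2]
        push_cast
        exact hg2
      · have h1 := ht2 j hj
        have h2 := hv.nonneg j k₁ π hπ hπ0
        have h3 : (K : ℤ) - c * b j ≤ v j y := by
          rw [vy j]
          have h4 : (0 : ℤ) ≤ e * v j π := mul_nonneg (by positivity) h2
          have h5 : (K : ℤ) ≤ K * v j t := by nlinarith [Int.natCast_nonneg K]
          linarith
        have h3' : (K : ℝ) - c * b j ≤ v j y := by exact_mod_cast h3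
        have h6 := hKj j
        push_cast
        have h7 : (r : ℝ) * ((K : ℝ) - c * b j) ≤ r * v j y :=
          mul_le_mul_of_nonneg_left h3' (by linarith)
        have h8 : (K : ℝ) ≤ r * K := by nlinarith [Nat.cast_nonneg (α := ℝ) K]
        nlinarith
  · have e0 : v i ((s₀ * y) ^ r) = v i (s₀ ^ r) + r * v i y := by
      rw [(hMVV C hC r F hF h v b hv i).1 (r - 1) (r * (k₁ * e + k₂ * K)) s₀ y hs1
        (by rw [← mul_assoc]; exact q5) hs0 n4,
        (hMVV C hC r F hF h v b hv i).2.2.1 _ y q5 n4]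
    rw [e0, vy i, hπ1, ht1]
    have e2 : (-(c * b i : ℤ) + e * 1 + K * 0 : ℤ) = g := by
      have : (g + c * b i : ℤ) = (e : ℤ) := he
      linarith
    rw [e2]
    push_cast
    exact hg1

theorem step3 (hMVV : StMVV) {C : Cone} (hC : Good C) {r : ℕ}
    {F : ℕ → ℕ → Submodule ℂ (MvPolynomial (Fin C.m) ℂ)} (hF : NF C r F) {h : ℕ}
    {v : Fin h → QQ C.m → ℤ} {b : Fin h → ℕ} (hv : VD C r F h v b) (ℓ : ℝ) :
    ∃ k₀ : ℕ, 1 ≤ k₀ ∧ ∀ k, k₀ ≤ k → ∃ x : QQ C.m, WW C r v b ℓ k x ∧ x.coeff 1 ≠ 0 := by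
  have hr := hF.hr
  have hrR : (1 : ℝ) ≤ r := by exact_mod_cast hr
  obtain ⟨X, hX1, hX0⟩ := exX hC
  obtain ⟨k₀, hk₀⟩ := exists_nat_gt (2 - ℓ)
  refine ⟨k₀ + 1, by omega, fun k hk => ?_⟩
  have hk1 : 1 ≤ k := by omega
  have hrk : 1 ≤ r * k := Nat.mul_pos hr hk1
  have hkR : (2 : ℝ) - ℓ < k := by
    have : (k₀ : ℝ) ≤ k := by exact_mod_cast (by omega : k₀ ≤ k)
    linarith
  obtain ⟨z, hz⟩ : ∃ z : QQ C.m, z = Polynomial.C (X ^ (C.n * (r * k - 1))) := ⟨_, rfl⟩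
  have hz1 : z ∈ QR C (C.n * (r * k - 1)) := by
    rw [hz]
    apply QRC
    have := Rpow hC hX1 (C.n * (r * k - 1))
    rwa [one_mul] at this
  have hz0 : z ≠ 0 := by
    rw [hz]; exact Polynomial.C_ne_zero.2 (pow_ne_zero _ hX0)
  have hXX : (Polynomial.X : QQ C.m) ∈ QR C (C.n * 0) := by rw [mul_zero]; exact QRX hC
  have hXX' : (Polynomial.X : QQ C.m) ∈ QR C (C.n * r * 0) := by rw [mul_zero]; exact QRX hC
  refine ⟨z * Polynomial.X, ⟨?_, ?_, ?_⟩, ?_⟩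
  · rw [sub_eq]
    have := QRmul hC hz1 hXX
    rwa [mul_zero, add_zero] at this
  · rw [Polynomial.mul_coeff_zero, Polynomial.coeff_X_zero, mul_zero]
  · intro _ j
    have hbj := hv.bpos j
    have hbR : (1 : ℝ) ≤ b j := by exact_mod_cast hbj
    rw [(hMVV C hC r F hF h v b hv j).1 (r * k - 1) 0 z Polynomial.X hz1 hXX hz0
      Polynomial.X_ne_zero, (hMVV C hC r F hF h v b hv j).2.2.1 0 Polynomial.X hXX'
      Polynomial.X_ne_zero, hv.tau]
    -- z ^ r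
    obtain ⟨s, hs⟩ : ∃ s : QQ C.m, s = Polynomial.C (X ^ (C.n * r)) := ⟨_, rfl⟩
    have hsR : X ^ (C.n * r) ∈ C.R (C.n * r) := by
      have := Rpow hC hX1 (C.n * r)
      rwa [one_mul] at this
    have hs1 : s ∈ QR C (C.n * r * 1) := by rw [hs, mul_one]; exact QRC hsR
    have hs0 : s ≠ 0 := by rw [hs]; exact Polynomial.C_ne_zero.2 (pow_ne_zero _ hX0)
    have ez : z ^ r = s ^ (r * k - 1) := by
      rw [hz, hs, ← Polynomial.C_pow, ← Polynomial.C_pow, ← pow_mul, ← pow_mul]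
      congr 2
      ring
    have hsB : s * Polynomial.X ∈ BB F 1 := by
      intro l
      rcases l with _ | l
      · rw [Polynomial.mul_coeff_zero, Polynomial.coeff_X_zero, mul_zero]
        exact (F 1 0).zero_mem
      · rw [Polynomial.coeff_mul_X, hs, Polynomial.coeff_C]
        split
        · rename_i hl
          rw [hl, zero_add, hF.one]
          exact hsR
        · exact (F 1 (l + 1)).zero_mem
    have hvs : (b j : ℤ) ≤ v j s := by
      have h1 := hv.nonneg j 1 _ hsB (mul_ne_zero hs0 Polynomial.X_ne_zero)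
      rw [hv.mul j 1 0 _ _ hs1 hXX' hs0 Polynomial.X_ne_zero, hv.tau] at h1
      linarith
    rw [ez, v_pow hC hv j hs1 hs0]
    have hvs' : (b j : ℝ) ≤ v j s := by exact_mod_cast hvs
    have hc : ((r * k - 1 : ℕ) : ℝ) = r * k - 1 := by
      rw [Nat.cast_sub hrk]; push_cast; ring
    push_cast
    rw [hc]
    have hpos : (0 : ℝ) ≤ r * k - 1 := by
      have : (1 : ℝ) ≤ ((r * k : ℕ) : ℝ) := by exact_mod_cast hrk
      push_cast at this
      linarith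
    have h2 : ((r : ℝ) * k - 1) * b j ≤ (r * k - 1) * v j s := mul_le_mul_of_nonneg_left hvs' hpos
    have h3 : 0 < ((r : ℝ) * (k - 1 + ℓ) - 1) * b j := by
      apply mul_pos _ (by linarith)
      nlinarith
    nlinarith
  · rw [Polynomial.coeff_mul_X, hz, Polynomial.coeff_C_zero]
    exact pow_ne_zero _ hX0

theorem hMGU (hMVV : StMVV) (hAGR : StAGR) : StMGU := by
  intro C hC r F hF h v b hv ℓ
  have hr := hF.hr
  -- minimal values
  have hmin : ∀ i : Fin h, ∃ (Ei : ℤ) (k : ℕ) (x : QQ C.m), 1 ≤ k ∧ WW C r v b ℓ k x ∧ x ≠ 0 ∧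
      v i (x ^ r) = Ei ∧ (Ei : ℝ) ≤ r - (r : ℝ) * ℓ * b i ∧
      ∀ (k' : ℕ) (x' : QQ C.m), 1 ≤ k' → WW C r v b ℓ k' x' → x' ≠ 0 → Ei ≤ v i (x' ^ r) := by
    intro i
    obtain ⟨k1, x1, hk1, hx1, hx10, hx1v⟩ := step1 hMVV hC hF hv ℓ i
    obtain ⟨lb, hlb, hlbmin⟩ := Int.exists_least_of_bdd
      (P := fun z : ℤ => ∃ (k : ℕ) (x : QQ C.m), 1 ≤ k ∧ WW C r v b ℓ k x ∧ x ≠ 0 ∧ v i (x ^ r) = z)
      ⟨⌊-((r : ℝ) * ℓ * b i)⌋, by
        rintro z ⟨k, x, hk, hx, hx0, rfl⟩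
        have h1 := hx.2.2 hx0 i
        exact Int.floor_le_iff.2 (by linarith)⟩
      ⟨v i (x1 ^ r), k1, x1, hk1, hx1, hx10, rfl⟩
    obtain ⟨k, x, hk, hx, hx0, hxv⟩ := hlb
    refine ⟨lb, k, x, hk, hx, hx0, hxv, ?_, ?_⟩
    · have h1 := hlbmin (v i (x1 ^ r)) ⟨k1, x1, hk1, hx1, hx10, rfl⟩
      have h2 : (lb : ℝ) ≤ (v i (x1 ^ r) : ℝ) := by exact_mod_cast h1
      linarith
    · intro k' x' hk' hx' hx0'
      exact hlbmin _ ⟨k', x', hk', hx', hx0', rfl⟩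
  choose Ei ki xi hki hxi hxi0 hxiv hEi hEmin using hmin
  obtain ⟨k₀, hk₀, hinf⟩ := step3 hMVV hC hF hv ℓ
  obtain ⟨k, hk⟩ : ∃ k : ℕ, k = k₀ + ∑ i, ki i := ⟨_, rfl⟩
  have hki' : ∀ i, ki i ≤ k := by
    intro i
    have : ki i ≤ ∑ i, ki i :=
      Finset.single_le_sum (f := ki) (fun _ _ => Nat.zero_le _) (Finset.mem_univ i)
    omega
  have hk1 : 1 ≤ k := by omega
  obtain ⟨xinf, hxinf, hxinf1⟩ := hinf k (by omega)
  -- all in the same degree
  have hxi' : ∀ i : Fin h, ∃ x : QQ C.m, WW C r v b ℓ k x ∧ x ≠ 0 ∧ v i (x ^ r) = Ei i := by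
    intro i
    obtain ⟨β, hβ, hβ0, hβv⟩ := hv.unit i
    have hpow : ∀ j : ℕ, ∃ x : QQ C.m, WW C r v b ℓ (ki i + j) x ∧ x ≠ 0 ∧ v i (x ^ r) = Ei i := by
      intro j
      induction j with
      | zero => exact ⟨xi i, hxi i, hxi0 i, hxiv i⟩
      | succ j ih =>
        obtain ⟨x, hx, hx0, hxv⟩ := ih
        have := WW_mul hC hF hv hMVV ℓ (by have := hki i; omega) hx hx0 hβ hβ0
        refine ⟨x * β, this.1, mul_ne_zero hx0 hβ0, ?_⟩
        rw [this.2 i, hβv, hxv, mul_zero, add_zero]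
    obtain ⟨x, hx⟩ := hpow (k - ki i)
    rw [Nat.add_sub_cancel' (hki' i)] at hx
    exact ⟨x, hx⟩
  -- subspaces
  let V : Submodule ℂ (QQ C.m) :=
    { carrier := {x | WW C r v b ℓ k x}
      add_mem' := fun hx hy => WW_add hC hF hv hMVV ℓ k hx hy
      zero_mem' := WW_zero ℓ k
      smul_mem' := fun c x hx => WW_smul hC hF hv hMVV ℓ k c hx }
  let Vi : Fin h → Submodule ℂ (QQ C.m) := fun i =>
    { carrier := {x | WW C r v b ℓ k x ∧ (x ≠ 0 → Ei i < v i (x ^ r))}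
      add_mem' := by
        rintro x y ⟨hx, hx'⟩ ⟨hy, hy'⟩
        refine ⟨WW_add hC hF hv hMVV ℓ k hx hy, fun hxy => ?_⟩
        by_cases hx0 : x = 0
        · rw [hx0, zero_add] at hxy ⊢; exact hy' hxy
        by_cases hy0 : y = 0
        · rw [hy0, add_zero] at hxy ⊢; exact hx' hxy
        have h1 := (hMVV C hC r F hF h v b hv i).2.1 (r * k - 1) x y (by rw [← sub_eq]; exact hx.1)
          (by rw [← sub_eq]; exact hy.1) hx0 hy0 hxy
        exact lt_of_lt_of_le (lt_min (hx' hx0) (hy' hy0)) h1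
      zero_mem' := ⟨WW_zero ℓ k, fun h0 => absurd rfl h0⟩
      smul_mem' := by
        rintro c x ⟨hx, hx'⟩
        refine ⟨WW_smul hC hF hv hMVV ℓ k c hx, fun hxy => ?_⟩
        have hx0 : x ≠ 0 := by rintro rfl; exact hxy (smul_zero c)
        have hc : c ≠ 0 := by rintro rfl; exact hxy (zero_smul ℂ x)
        rw [(hMVV C hC r F hF h v b hv i).2.2.2.2 (r * k - 1) x c (by rw [← sub_eq]; exact hx.1)
          hx0 hc]
        exact hx' hx0 }
  let V1 : Submodule ℂ (QQ C.m) :=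
    { carrier := {x | x.coeff 1 = 0}
      add_mem' := by
        intro x y hx hy
        change (x + y).coeff 1 = 0
        rw [Polynomial.coeff_add, show x.coeff 1 = 0 from hx, show y.coeff 1 = 0 from hy, add_zero]
      zero_mem' := by
        change (0 : QQ C.m).coeff 1 = 0
        exact Polynomial.coeff_zero 1
      smul_mem' := by
        intro c x hx
        change (c • x).coeff 1 = 0
        rw [Polynomial.coeff_smul, show x.coeff 1 = 0 from hx, smul_zero] }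
  let p : Option (Fin h) → Submodule ℂ V := fun o =>
    match o with
    | none => V1.comap V.subtype
    | some i => (Vi i).comap V.subtype
  have hu : ∃ u : V, ∀ o, u ∉ p o := by
    by_contra hcon
    push Not at hcon
    have hcov : (⋃ o, (p o : Set V)) = Set.univ := by
      apply Set.eq_univ_of_forall
      intro u
      obtain ⟨o, ho⟩ := hcon u
      exact Set.mem_iUnion.2 ⟨o, ho⟩
    obtain ⟨o, ho⟩ := Subspace.exists_eq_top_of_iUnion_eq_univ (k := ℂ) (E := V) (p := p) hcov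
    rcases o with _ | i
    · have : (⟨xinf, hxinf⟩ : V) ∈ p none := by rw [ho]; exact Submodule.mem_top
      exact hxinf1 this
    · obtain ⟨x, hx, hx0, hxv⟩ := hxi' i
      have : (⟨x, hx⟩ : V) ∈ p (some i) := by rw [ho]; exact Submodule.mem_top
      have h2 : Ei i < v i (x ^ r) := this.2 hx0
      rw [hxv] at h2
      exact lt_irrefl _ h2
  obtain ⟨⟨u, huW⟩, hu⟩ := hu
  have hu1 : u.coeff 1 ≠ 0 := hu none
  have hu0 : u ≠ 0 := by
    rintro rfl
    exact hu1 (Polynomial.coeff_zero 1)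
  have huE : ∀ i, v i (u ^ r) ≤ Ei i := by
    intro i
    by_contra hcon
    push Not at hcon
    exact hu (some i) ⟨huW, fun _ => hcon⟩
  refine ⟨k, u, ⟨hk1, huW.1, huW.2.1, hu1, huW.2.2 hu0, ?_, ?_⟩⟩
  · intro i
    have h1 : (v i (u ^ r) : ℝ) ≤ Ei i := by exact_mod_cast huE i
    exact h1.trans (hEi i)
  · intro k' x hk' hx hx0 hxc hxl i
    exact (huE i).trans (hEmin i k' x hk' ⟨hx, hxc, fun _ => hxl⟩ hx0)

end Pool.Agent.Helper66.KPA
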