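import Pool.Agent.Helper85.KPA.StC

set_option autoImplicit false

namespace Pool.Agent.Helper66.KPA

open Pool.Agent.Helper85.KPA Pool.Agent.Helper5.KPA Pool.Agent.Helper52.KP MvPolynomial

private theorem cQRmul {C : Cone} (hC : Good C) {a a' : ℕ} {x y : QQ C.m} (hx : x ∈ QR C a)
    (hy : y ∈ QR C a') : x * y ∈ QR C (a + a') := by
  intro l
  rw [Polynomial.coeff_mul]
  exact (C.R (a + a')).sum_mem fun p _ => hC.mul _ _ _ _ (hx p.1) (hy p.2)

private theorem cQRC {C : Cone} {a : ℕ} {f : MvPolynomial (Fin C.m) ℂ} (hf : f ∈ C.R a) :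
    (Polynomial.C f : QQ C.m) ∈ QR C a := by
  intro l
  rw [Polynomial.coeff_C]
  split
  · exact hf
  · exact (C.R a).zero_mem

private theorem cQRX {C : Cone} (hC : Good C) : (Polynomial.X : QQ C.m) ∈ QR C 0 := by
  intro l
  rw [Polynomial.coeff_X]
  split
  · exact hC.one
  · exact (C.R 0).zero_mem

private theorem noeth {C : Cone} (hC : Good C) {r : ℕ}
    {F : ℕ → ℕ → Submodule ℂ (MvPolynomial (Fin C.m) ℂ)} (hF : NF C r F) :
    IsNoetherianRing (Dd C (C.n * r)) := by
  have hfd := hC.fd (C.n * r)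
  obtain ⟨s, hs⟩ := (Submodule.fg_iff_finiteDimensional (C.R (C.n * r))).2 hfd
  obtain ⟨S, hS⟩ : ∃ S : Set (QQ C.m), S = (Polynomial.C '' (s : Set (MvPolynomial (Fin C.m) ℂ))) ∪
      {Polynomial.X} := ⟨_, rfl⟩
  have hSfin : S.Finite := by
    rw [hS]
    exact (s.finite_toSet.image _).union (Set.finite_singleton _)
  have hconst : ∀ c : ℂ, Polynomial.C (MvPolynomial.C c) ∈ Algebra.adjoin ℂ S := by
    intro c
    have : (Polynomial.C (MvPolynomial.C c) : QQ C.m) = algebraMap ℂ (QQ C.m) c := rfl
    rw [this]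
    exact Subalgebra.algebraMap_mem _ c
  have h1 : ∀ g ∈ C.R (C.n * r), Polynomial.C g ∈ Algebra.adjoin ℂ S := by
    intro g hg
    rw [← hs] at hg
    induction hg using Submodule.span_induction with
    | mem x hx =>
      apply Algebra.subset_adjoin
      rw [hS]
      exact Or.inl ⟨x, hx, rfl⟩
    | zero => rw [Polynomial.C_0]; exact Subalgebra.zero_mem _
    | add x y _ _ hx hy => rw [Polynomial.C_add]; exact Subalgebra.add_mem _ hx hy
    | smul a x _ hx =>
      rw [MvPolynomial.smul_eq_C_mul, Polynomial.C_mul]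
      exact Subalgebra.mul_mem _ (hconst a) hx
  have hk : ∀ k, ∀ g ∈ C.R (C.n * r * k), Polynomial.C g ∈ Algebra.adjoin ℂ S := by
    intro k
    induction k with
    | zero =>
      intro g hg
      rw [mul_zero] at hg
      obtain ⟨c, rfl⟩ := hC.cst g hg
      exact hconst c
    | succ k ih =>
      rcases Nat.eq_zero_or_pos k with rfl | hk0
      · intro g hg
        rw [zero_add, mul_one] at hg
        exact h1 g hg
      · intro g hg
        rw [← hF.zero, hF.gen k 0 hk0] at hg
        induction hg using Submodule.span_induction with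
        | mem x hx =>
          obtain ⟨i, j, f, f', hij, hf, hf', rfl⟩ := hx
          have hi : i = 0 := by omega
          have hj : j = 0 := by omega
          subst hi; subst hj
          rw [hF.zero] at hf hf'
          rw [mul_one] at hf'
          rw [Polynomial.C_mul]
          exact Subalgebra.mul_mem _ (ih f hf) (h1 f' hf')
        | zero => rw [Polynomial.C_0]; exact Subalgebra.zero_mem _
        | add x y _ _ hx hy => rw [Polynomial.C_add]; exact Subalgebra.add_mem _ hx hy
        | smul a x _ hx =>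
          rw [MvPolynomial.smul_eq_C_mul, Polynomial.C_mul]
          exact Subalgebra.mul_mem _ (hconst a) hx
  have hX : (Polynomial.X : QQ C.m) ∈ Algebra.adjoin ℂ S := by
    apply Algebra.subset_adjoin
    rw [hS]
    exact Or.inr rfl
  have hDd : Dd C (C.n * r) = Algebra.adjoin ℂ S := by
    apply le_antisymm
    · apply Algebra.adjoin_le
      rintro x ⟨k, hx⟩
      rw [x.as_sum_range_C_mul_X_pow]
      exact Subalgebra.sum_mem _ fun l _ =>
        Subalgebra.mul_mem _ (hk k _ (hx l)) (Subalgebra.pow_mem _ hX l)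
    · apply Algebra.adjoin_le
      intro x hx
      rw [hS] at hx
      rcases hx with ⟨b, hb, rfl⟩ | hx
      · apply Algebra.subset_adjoin
        refine ⟨1, ?_⟩
        rw [mul_one]
        apply cQRC
        rw [← hs]
        exact Submodule.subset_span hb
      · rw [Set.mem_singleton_iff] at hx
        subst hx
        apply Algebra.subset_adjoin
        exact ⟨0, by rw [mul_zero]; exact cQRX hC⟩
  have hfg : (Dd C (C.n * r)).FG := by
    rw [hDd]
    exact ⟨hSfin.toFinset, by rw [Set.Finite.coe_toFinset]⟩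
  have := (Dd C (C.n * r)).fg_iff_finiteType.1 hfg
  exact Algebra.FiniteType.isNoetherianRing ℂ (Dd C (C.n * r))

theorem hCND : StCHM → StCND := by
  intro hCHM C hC r F hF
  refine ⟨noeth hC hF, ?_⟩
  obtain ⟨c1, c2, c3, c4⟩ := hCHM C.m C.w
  have key : ∀ (k : ℕ) (x : QQ C.m), x ∈ QR C (C.n * r * k) → ∀ n,
      (Ps C.w x).coeff n ∈ QR C n ∧ (¬ (C.n * r) ∣ n → (Ps C.w x).coeff n = 0) := by
    intro k x hx n
    have h1 : Ps C.w x = Polynomial.C x * Polynomial.X ^ (C.n * r * k) := by
      rw [c3]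
      intro l
      rw [← c1]
      exact hC.hom _ _ (hx l)
    rw [h1, Polynomial.coeff_C_mul_X_pow]
    by_cases hn : n = C.n * r * k
    · rw [if_pos hn]
      refine ⟨by rw [hn]; exact hx, fun h2 => ?_⟩
      exact absurd (by rw [hn]; exact dvd_mul_right _ _) h2
    · rw [if_neg hn]
      exact ⟨(QR C n).zero_mem, fun _ => rfl⟩
  intro x hx
  induction hx using Algebra.adjoin_induction with
  | mem x hx =>
    obtain ⟨k, hk⟩ := hx
    exact key k x hk
  | algebraMap c =>
    apply key 0
    rw [mul_zero]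
    have e : algebraMap ℂ (QQ C.m) c = Polynomial.C (c • (1 : MvPolynomial (Fin C.m) ℂ)) := by
      rw [MvPolynomial.smul_eq_C_mul, mul_one]; rfl
    rw [e]
    exact cQRC ((C.R 0).smul_mem c hC.one)
  | add x y _ _ hx hy =>
    intro n
    rw [map_add, Polynomial.coeff_add]
    exact ⟨(QR C n).add_mem (hx n).1 (hy n).1, fun h2 => by rw [(hx n).2 h2, (hy n).2 h2, add_zero]⟩
  | mul x y _ _ hx hy =>
    intro n
    rw [map_mul, Polynomial.coeff_mul]
    refine ⟨(QR C n).sum_mem fun p hp => ?_, fun h2 => Finset.sum_eq_zero fun p hp => ?_⟩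
    · have := cQRmul hC (hx p.1).1 (hy p.2).1
      rwa [Finset.HasAntidiagonal.mem_antidiagonal.1 hp] at this
    · have hp' := Finset.HasAntidiagonal.mem_antidiagonal.1 hp
      by_cases h3 : (C.n * r) ∣ p.1
      · have h4 : ¬ (C.n * r) ∣ p.2 := fun h4 => h2 (by rw [← hp']; exact dvd_add h3 h4)
        rw [(hy p.2).2 h4, mul_zero]
      · rw [(hx p.1).2 h3, zero_mul]

end Pool.Agent.Helper66.KPA
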